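import Mathlib
import Pool.Agent.Lib_helper31.PLDefs
import Pool.Agent.Lib_helper41.ZPL.Fib

set_option autoImplicit false

namespace Pool.Agent.Results.MP_007c2d_nt.NotFibonacci

open Pool.Agent.Lib_helper31.PL

/-- If `(a, b)` is not an integer multiple of a pair `(f_k, f_{k+1})`, `k ∈ ℤ`, of consecutive
terms of the two-sided Fibonacci sequence, then `(a, b)` has infinitely many odd
`0`-Pisano-Legendre primes. -/
theorem result (a b : ℤ) (h : ¬ ∃ c k : ℤ, a = c * Int.fib k ∧ b = c * Int.fib (k + 1)) :
    (PLprimes a b 0).Infinite :=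
  Pool.Agent.Lib_helper41.ZPL.infinite_of_not_fib a b h

end Pool.Agent.Results.MP_007c2d_nt.NotFibonacci
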